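import Pool.Agent.helper63.NU.Defs3

set_option autoImplicit false

/-! Module Q3 of MP_737c0a_gt (plan of helper63): the optimisation lemma with a nearly optimal distribution (proof of helper5, module E2). -/

open MeasureTheory Filter Topology Set
open scoped ContDiff Manifold Matrix ENNReal ComplexOrder

noncomputable section

namespace Pool.Agent.helper63.NU

variable {N : ℕ}

/-- the partition function -/
private def Q3Z (θ : ℝ) (lam : Fin N → ℝ) : ℝ := ∑ i, Real.exp (-(θ * lam i))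

private theorem Q3Z_pos (hN : 0 < N) (θ : ℝ) (lam : Fin N → ℝ) : 0 < Q3Z θ lam := by
  have : Nonempty (Fin N) := ⟨⟨0, hN⟩⟩
  exact Finset.sum_pos (fun i _ => Real.exp_pos _) Finset.univ_nonempty

/-- Rescaling: the function `s ↦ H(C, s lam)` has a minimum on `[0,1]`. -/
private theorem Q3_rescale (hN : 0 < N) (θ a : ℝ) (lam : Fin N → ℝ) :
    ∃ s : ℝ, 0 ≤ s ∧ Real.log (Q3Z θ (s • lam)) + s * a ≤ Real.log (Q3Z θ lam) + a ∧
      s * a ≤ ∑ i, Real.exp (-(θ * (s • lam) i)) / Q3Z θ (s • lam) * (θ * (s • lam) i) := by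
  set h : ℝ → ℝ := fun s => Real.log (Q3Z θ (s • lam)) + s * a with hh
  have hder : ∀ s, HasDerivAt h
      ((∑ i, Real.exp (-(θ * (s • lam) i)) * (-(θ * lam i))) / Q3Z θ (s • lam) + a) s := by
    intro s
    have h1 : HasDerivAt (fun s : ℝ => Q3Z θ (s • lam))
        (∑ i, Real.exp (-(θ * (s • lam) i)) * (-(θ * lam i))) s := by
      unfold Q3Z
      apply HasDerivAt.fun_sum
      intro i _
      apply HasDerivAt.exp
      have h2 : HasDerivAt (fun s : ℝ => -(θ * (s * lam i))) (-(θ * (1 * lam i))) s :=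
        (((hasDerivAt_id s).mul_const (lam i)).const_mul θ).neg
      simpa [Pi.smul_apply, smul_eq_mul] using h2
    have h3 := (h1.log (Q3Z_pos hN θ _).ne').add ((hasDerivAt_id s).mul_const a)
    rw [one_mul] at h3
    exact h3
  have hcont : ContinuousOn h (Icc 0 1) := fun s _ => (hder s).continuousAt.continuousWithinAt
  obtain ⟨s, hs, hmin⟩ := isCompact_Icc.exists_isMinOn (nonempty_Icc.2 (zero_le_one' ℝ)) hcont
  refine ⟨s, hs.1, ?_, ?_⟩
  · have := hmin (show (1 : ℝ) ∈ Icc (0:ℝ) 1 from ⟨zero_le_one, le_rfl⟩)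
    simpa [hh] using this
  rcases hs.1.eq_or_lt with h0 | h0
  · subst h0
    simp
  · have hd := hder s
    have hle : (∑ i, Real.exp (-(θ * (s • lam) i)) * (-(θ * lam i))) / Q3Z θ (s • lam) + a ≤ 0 := by
      have h1 := (hasDerivAt_iff_tendsto_slope.1 hd).mono_left
        (nhdsWithin_mono s (fun x (hx : x < s) => (ne_of_lt hx : x ≠ s)) : 𝓝[<] s ≤ 𝓝[≠] s)
      refine le_of_tendsto h1 ?_
      have h2 : ∀ᶠ x in 𝓝[<] s, 0 < x ∧ x < s := by
        refine Filter.Eventually.and ?_ self_mem_nhdsWithin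
        exact mem_nhdsWithin_of_mem_nhds (Ioi_mem_nhds h0)
      filter_upwards [h2] with x hx
      have h3 : h s ≤ h x := hmin (show x ∈ Icc (0:ℝ) 1 from ⟨hx.1.le, (hx.2.le.trans hs.2)⟩)
      rw [_root_.slope_def_field]
      exact div_nonpos_of_nonneg_of_nonpos (by linarith) (by linarith [hx.2])
    have h4 : s * ((∑ i, Real.exp (-(θ * (s • lam) i)) * (-(θ * lam i))) / Q3Z θ (s • lam) + a) ≤ 0 :=
      mul_nonpos_of_nonneg_of_nonpos h0.le hle
    have h5 : ∑ i, Real.exp (-(θ * (s • lam) i)) / Q3Z θ (s • lam) * (θ * (s • lam) i)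
        = -(s * ((∑ i, Real.exp (-(θ * (s • lam) i)) * (-(θ * lam i))) / Q3Z θ (s • lam))) := by
      rw [Finset.sum_div, Finset.mul_sum, ← Finset.sum_neg_distrib]
      refine Finset.sum_congr rfl fun i _ => ?_
      simp only [Pi.smul_apply, smul_eq_mul]
      ring
    rw [h5]
    linarith

private theorem Q3_exp_le {x : ℝ} (hx : 0 ≤ x) : Real.exp (-x) ≤ 1 - x + x ^ 2 / 2 := by
  have h := Real.quadratic_le_exp_of_nonneg hx
  have h1 : 0 < 1 + x + x ^ 2 / 2 := by positivity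
  rw [Real.exp_neg, inv_le_iff_one_le_mul₀ (Real.exp_pos x)]
  have h2 : 0 ≤ 1 - x + x ^ 2 / 2 := by nlinarith [sq_nonneg (x - 1)]
  calc (1 : ℝ) ≤ (1 - x + x ^ 2 / 2) * (1 + x + x ^ 2 / 2) := by nlinarith [sq_nonneg (x ^ 2)]
    _ ≤ _ := mul_le_mul_of_nonneg_left h h2

/-- the proof of `optimize` gives a nearly optimal distribution -/
theorem optimize2 {n : ℕ} (hn : 0 < n) (hN : 0 < N) {θ L : ℝ} (hθ : 0 < θ) (A0 : ℕ)
    (A : Matrix (Fin N) (Fin N) ℂ → (Fin N → ℝ) → ℝ)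
    (hhom : ∀ C, IsUnit C.det → ∀ lam, ∀ t ≥ 0, A C (t • lam) = t * A C lam)
    (hsub : ∀ C, IsUnit C.det → ∀ lam lam', A C (lam + lam') ≤ A C lam + A C lam')
    (hflag : ∀ C C', IsUnit C.det → IsUnit C'.det → ∀ lam lam' : Fin N → ℝ,
      (∀ i j, C' i j ≠ 0 → lam' i ≤ lam j) → A (C' * C) lam' ≤ A C lam)
    (hL : ∀ C, IsUnit C.det → ∀ lam, L ≤ Real.log (∑ i, Real.exp (-(θ * lam i))) + A C lam)
    (hjet : ∀ C, IsUnit C.det → ∀ lam : Fin N → ℝ, ∃ (C' : Matrix (Fin N) (Fin N) ℂ)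
      (σ : Equiv.Perm (Fin N)) (α : Fin N → Fin n → ℕ), IsUnit C'.det ∧ Function.Injective α ∧
      (∀ i β, β ≤ α i → ∃ j, α j = β) ∧ (∀ i j, C' i j ≠ 0 → lam (σ i) ≤ lam j) ∧
      (∀ i j, α i ≤ α j → lam (σ j) ≤ lam (σ i)) ∧ (∀ i, ∑ a, α i a ≤ A0) ∧
      A (C' * C) (fun i => (∑ a, α i a : ℕ)) ≤ n) {η : ℝ} (hη : 0 < η) :
    ∃ (B : Finset (Fin n → ℕ)) (g : (Fin n → ℕ) → ℝ), B.card = N ∧
      (∀ α ∈ B, ∀ β, β ≤ α → β ∈ B) ∧ (∀ α ∈ B, ∑ i, α i ≤ A0) ∧ (∀ α ∈ B, 0 ≤ g α) ∧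
      ∑ α ∈ B, g α = 1 ∧ (∀ α ∈ B, ∀ β ∈ B, α ≤ β → g α ≤ g β) ∧
      ∑ α ∈ B, g α * (∑ i, (α i : ℝ)) ≤ (n + η) / θ ∧
      L ≤ -∑ α ∈ B, g α * Real.log (g α) + η := by
  classical
  have hn' : (0 : ℝ) < n := by exact_mod_cast hn
  -- the infimum
  set Sset : Set ℝ := {v | ∃ C : Matrix (Fin N) (Fin N) ℂ, IsUnit C.det ∧ ∃ lam : Fin N → ℝ,
    v = Real.log (Q3Z θ lam) + A C lam} with hSset
  have hbdd : BddBelow Sset := ⟨L, by
    rintro v ⟨C, hC, lam, rfl⟩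
    exact hL C hC lam⟩
  have hne : Sset.Nonempty := ⟨_, 1, by simp, 0, rfl⟩
  set I := sInf Sset with hI
  have hLI : L ≤ I := le_csInf hne (by
    rintro v ⟨C, hC, lam, rfl⟩
    exact hL C hC lam)
  have hIle : ∀ C : Matrix (Fin N) (Fin N) ℂ, IsUnit C.det → ∀ lam : Fin N → ℝ,
      I ≤ Real.log (Q3Z θ lam) + A C lam := fun C hC lam => csInf_le hbdd ⟨C, hC, lam, rfl⟩
  -- the choice of ε
  obtain ⟨ε, hε, hεη⟩ : ∃ ε : ℝ, 0 < ε ∧ ε * (1 + θ ^ 2 * A0 ^ 2 / 2) ≤ η := by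
    refine ⟨η / (1 + θ ^ 2 * A0 ^ 2 / 2), by positivity, ?_⟩
    rw [div_mul_cancel₀]
    positivity
  obtain ⟨v, ⟨C, hC, lam0, rfl⟩, hv⟩ := exists_lt_of_csInf_lt hne
    (show sInf Sset < I + ε ^ 2 by have := pow_pos hε 2; linarith)
  obtain ⟨s, hs0, hs1, hs2⟩ := Q3_rescale hN θ (A C lam0) lam0
  set lam := s • lam0 with hlam
  have hA : A C lam = s * A C lam0 := hhom C hC lam0 s hs0
  rw [← hA] at hs1 hs2
  set Z := Q3Z θ lam with hZ
  have hZ0 : 0 < Z := Q3Z_pos hN θ lam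
  set g : Fin N → ℝ := fun i => Real.exp (-(θ * lam i)) / Z with hg
  have hg0 : ∀ i, 0 < g i := fun i => div_pos (Real.exp_pos _) hZ0
  have hgsum : ∑ i, g i = 1 := by
    rw [hg, ← Finset.sum_div]
    exact div_self hZ0.ne'
  have hlogg : ∀ i, Real.log (g i) = -(θ * lam i) - Real.log Z := by
    intro i
    rw [hg]
    simp only
    rw [Real.log_div (Real.exp_pos _).ne' hZ0.ne', Real.log_exp]
  -- H ≤ entropy
  have hent : Real.log Z + A C lam ≤ -∑ i, g i * Real.log (g i) := by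
    have : -∑ i, g i * Real.log (g i) = ∑ i, g i * (θ * lam i) + Real.log Z := by
      calc -∑ i, g i * Real.log (g i) = ∑ i, (g i * (θ * lam i) + g i * Real.log Z) := by
            rw [← Finset.sum_neg_distrib]
            refine Finset.sum_congr rfl fun i _ => ?_
            rw [hlogg]; ring
        _ = _ := by rw [Finset.sum_add_distrib, ← Finset.sum_mul, hgsum, one_mul]
    rw [this]
    linarith [hs2]
  have hH : Real.log Z + A C lam ≤ I + ε ^ 2 := by linarith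
  -- jets
  obtain ⟨C', σ, α, hC', hαinj, hαid, hflg, hmono, hdeg, hA'⟩ := hjet C hC lam
  set d : Fin N → ℝ := fun i => ((∑ a, α i a : ℕ) : ℝ) with hd
  have hd0 : ∀ i, 0 ≤ d i := fun i => Nat.cast_nonneg _
  have hdN : ∀ i, d i ≤ A0 := fun i => by
    simp only [hd]
    exact_mod_cast hdeg i
  have hCC : IsUnit (C' * C).det := by rw [Matrix.det_mul]; exact hC'.mul hC
  set lam' : Fin N → ℝ := fun i => lam (σ i) with hlam'
  have hA1 : A (C' * C) (lam' + ε • d) ≤ A C lam + ε * n := by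
    calc A (C' * C) (lam' + ε • d) ≤ A (C' * C) lam' + A (C' * C) (ε • d) := hsub _ hCC _ _
      _ = A (C' * C) lam' + ε * A (C' * C) d := by rw [hhom _ hCC d ε hε.le]
      _ ≤ A C lam + ε * n := add_le_add (hflag C C' hC hC' lam lam' hflg)
          (mul_le_mul_of_nonneg_left hA' hε.le)
  have hI1 := hIle (C' * C) hCC (lam' + ε • d)
  -- the partition function of lam' + ε d
  have hZ1 : Q3Z θ (lam' + ε • d) = Z * ∑ i, g (σ i) * Real.exp (-(θ * (ε * d i))) := by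
    rw [Finset.mul_sum]
    unfold Q3Z
    refine Finset.sum_congr rfl fun i _ => ?_
    simp only [hg, hlam', Pi.add_apply, Pi.smul_apply, smul_eq_mul]
    rw [← mul_assoc, mul_div_cancel₀ _ hZ0.ne', ← Real.exp_add]
    congr 1
    ring
  have hY0 : 0 < ∑ i, g (σ i) * Real.exp (-(θ * (ε * d i))) := by
    have := Q3Z_pos hN θ (lam' + ε • d)
    rw [hZ1] at this
    exact (pos_iff_pos_of_mul_pos this).1 hZ0
  have hlogY : Real.log (Q3Z θ (lam' + ε • d))
      ≤ Real.log Z + (∑ i, g (σ i) * Real.exp (-(θ * (ε * d i))) - 1) := by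
    rw [hZ1, Real.log_mul hZ0.ne' hY0.ne']
    linarith [Real.log_le_sub_one_of_pos hY0]
  have hgσ : ∑ i, g (σ i) = 1 := by rw [Equiv.sum_comp σ g, hgsum]
  have hY1 : ∑ i, g (σ i) * Real.exp (-(θ * (ε * d i))) - 1
      ≤ -(θ * ε * ∑ i, g (σ i) * d i) + ε ^ 2 * (θ ^ 2 * A0 ^ 2 / 2) := by
    have : ∀ i, g (σ i) * Real.exp (-(θ * (ε * d i)))
        ≤ g (σ i) - θ * ε * (g (σ i) * d i) + g (σ i) * (ε ^ 2 * (θ ^ 2 * A0 ^ 2 / 2)) := by
      intro i
      have h1 := Q3_exp_le (x := θ * (ε * d i)) (by have := hd0 i; positivity)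
      have h2 : (θ * (ε * d i)) ^ 2 / 2 ≤ ε ^ 2 * (θ ^ 2 * A0 ^ 2 / 2) := by
        have h3 : d i ^ 2 ≤ (A0 : ℝ) ^ 2 := pow_le_pow_left₀ (hd0 i) (hdN i) 2
        have h4 : (θ * (ε * d i)) ^ 2 / 2 = (ε ^ 2 * θ ^ 2 / 2) * d i ^ 2 := by ring
        have h5 : ε ^ 2 * (θ ^ 2 * (A0 : ℝ) ^ 2 / 2) = (ε ^ 2 * θ ^ 2 / 2) * (A0 : ℝ) ^ 2 := by ring
        rw [h4, h5]
        exact mul_le_mul_of_nonneg_left h3 (by positivity)
      calc g (σ i) * Real.exp (-(θ * (ε * d i)))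
          ≤ g (σ i) * (1 - θ * (ε * d i) + ε ^ 2 * (θ ^ 2 * A0 ^ 2 / 2)) :=
            mul_le_mul_of_nonneg_left (by linarith) (hg0 _).le
        _ = _ := by ring
    calc ∑ i, g (σ i) * Real.exp (-(θ * (ε * d i))) - 1
        ≤ ∑ i, (g (σ i) - θ * ε * (g (σ i) * d i) + g (σ i) * (ε ^ 2 * (θ ^ 2 * A0 ^ 2 / 2))) - 1 := by
          have := Finset.sum_le_sum (fun i (_ : i ∈ Finset.univ) => this i)
          linarith
      _ = _ := by
          rw [Finset.sum_add_distrib, Finset.sum_sub_distrib, hgσ, ← Finset.mul_sum,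
            ← Finset.sum_mul, hgσ]
          ring
  -- the mean degree
  have hmean : ∑ i, g (σ i) * d i ≤ (n + ε * (1 + θ ^ 2 * A0 ^ 2 / 2)) / θ := by
    rw [le_div_iff₀ hθ]
    have h1 : -(ε ^ 2) ≤ -(θ * ε * ∑ i, g (σ i) * d i) + ε ^ 2 * (θ ^ 2 * A0 ^ 2 / 2) + ε * n := by
      linarith
    have h2 : ε * ((∑ i, g (σ i) * d i) * θ) ≤ ε * (n + ε * (1 + θ ^ 2 * A0 ^ 2 / 2)) := by
      nlinarith [h1]
    exact le_of_mul_le_mul_left h2 hε
  -- the entropy inequality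
  set B : Finset (Fin n → ℕ) := Finset.univ.image α with hB
  set G : (Fin n → ℕ) → ℝ := fun β => ∑ i, if α i = β then g (σ i) else 0 with hG
  have hGα : ∀ i, G (α i) = g (σ i) := by
    intro i
    simp only [hG]
    rw [Finset.sum_eq_single i]
    · simp
    · intro j _ hj
      rw [if_neg]
      exact fun h => hj (hαinj h)
    · simp
  have hBsum : ∀ F : (Fin n → ℕ) → ℝ, ∑ β ∈ B, F β = ∑ i, F (α i) := by
    intro F
    rw [hB, Finset.sum_image]
    intro i _ j _ h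
    exact hαinj h
  refine ⟨B, G, ?_, ?_, ?_, ?_, ?_, ?_, ?_, ?_⟩
  · rw [hB, Finset.card_image_of_injective _ hαinj, Finset.card_univ, Fintype.card_fin]
  · intro β hβ γ hγ
    obtain ⟨i, -, rfl⟩ := Finset.mem_image.1 hβ
    obtain ⟨j, hj⟩ := hαid i γ hγ
    exact Finset.mem_image.2 ⟨j, Finset.mem_univ _, hj⟩
  · intro β hβ
    obtain ⟨i, -, rfl⟩ := Finset.mem_image.1 hβ
    exact hdeg i
  · intro β hβ
    obtain ⟨i, -, rfl⟩ := Finset.mem_image.1 hβ
    rw [hGα]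
    exact (hg0 _).le
  · rw [hBsum]
    simp only [hGα]
    exact hgσ
  · intro β hβ γ hγ hle
    obtain ⟨i, -, rfl⟩ := Finset.mem_image.1 hβ
    obtain ⟨j, -, rfl⟩ := Finset.mem_image.1 hγ
    rw [hGα, hGα]
    simp only [hg]
    apply div_le_div_of_nonneg_right _ hZ0.le
    apply Real.exp_le_exp.2
    have := hmono i j hle
    nlinarith
  · rw [hBsum]
    simp only [hGα]
    have hdd : ∀ i, (∑ a, (α i a : ℝ)) = d i := fun i => by simp [hd]
    simp only [hdd]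
    refine hmean.trans ?_
    apply div_le_div_of_nonneg_right _ hθ.le
    linarith
  · rw [hBsum]
    simp only [hGα]
    have hperm : ∑ i, g (σ i) * Real.log (g (σ i)) = ∑ i, g i * Real.log (g i) :=
      Equiv.sum_comp σ (fun i => g i * Real.log (g i))
    rw [hperm]
    linarith [hIle C hC lam]

end Pool.Agent.helper63.NU
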