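import Pool.Agent.helper41.NU.A2
import Pool.Agent.helper31.NU.PDefs

set_option autoImplicit false
set_option linter.all false

/-! Module P9: the pointwise Bochner inequality on `ℂP^{m-1}`, in homogeneous coordinates. -/

open MeasureTheory Filter Topology Set
open scoped ContDiff ComplexOrder

noncomputable section

namespace Pool.Agent.helper31.NU

open Pool.Agent.helper63.NU (E dz db lev)

variable {m : ℕ} {F H K : E m → ℝ} {z : E m}

namespace P9

open Pool.Agent.helper63.NU Pool.Agent.helper63.NU.A2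


/-! ### algebra -/

private theorem nsq {ι : Type} (s : Finset ι) (X : ι → ℂ) :
    ((∑ i ∈ s, ‖X i‖ ^ 2 : ℝ) : ℂ) = ∑ i ∈ s, X i * (starRingEnd ℂ) (X i) := by
  push_cast
  exact Finset.sum_congr rfl fun i _ => (Complex.mul_conj' (X i)).symm

private theorem nsq2 (X : Fin m → Fin m → ℂ) :
    ((∑ a, ∑ b, ‖X a b‖ ^ 2 : ℝ) : ℂ) = ∑ a, ∑ b, X a b * (starRingEnd ℂ) (X a b) := by
  rw [Complex.ofReal_sum]
  exact Finset.sum_congr rfl fun a _ => nsq _ _

private theorem alg1 (z p : Fin m → ℂ) (S : Fin m → Fin m → ℂ) {r : ℝ} (hr : 0 < r)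
    (hz : ∑ a, z a * (starRingEnd ℂ) (z a) = r) (hp : ∑ a, z a * p a = 0)
    (hS1 : ∀ a, ∑ b, z b * S a b = -p a) (hS2 : ∀ b, ∑ a, z a * S a b = -p b) :
    2 * (∑ a, ‖p a‖ ^ 2) ≤ r * ∑ a, ∑ b, ‖S a b‖ ^ 2 := by
  have hr' : (r : ℂ) ≠ 0 := by exact_mod_cast hr.ne'
  set Y : Fin m → Fin m → ℂ := fun a b => (p a * (starRingEnd ℂ) (z b) + (starRingEnd ℂ) (z a) * p b) / r with hY
  set G : ℂ := ∑ a, p a * (starRingEnd ℂ) (p a) with hG
  have hYc : ∀ a b, (starRingEnd ℂ) (Y a b) = ((starRingEnd ℂ) (p a) * z b + z a * (starRingEnd ℂ) (p b)) / r := by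
    intro a b
    simp only [hY, map_div₀, map_add, map_mul, Complex.conj_conj, Complex.conj_ofReal]
  have A1 : ∑ a, ∑ b, S a b * (starRingEnd ℂ) (Y a b) = -(2 * G / r) := by
    have h1 : ∀ a b, S a b * (starRingEnd ℂ) (Y a b)
        = ((starRingEnd ℂ) (p a) / r) * (z b * S a b) + ((starRingEnd ℂ) (p b) / r) * (z a * S a b) := by
      intro a b
      rw [hYc]; ring
    simp_rw [h1, Finset.sum_add_distrib]
    rw [Finset.sum_comm (f := fun a b => ((starRingEnd ℂ) (p b) / r) * (z a * S a b))]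
    simp_rw [← Finset.mul_sum, hS1, hS2]
    rw [← Finset.sum_add_distrib, hG, Finset.mul_sum, Finset.sum_div, ← Finset.sum_neg_distrib]
    refine Finset.sum_congr rfl fun a _ => ?_
    ring
  have hGr : (starRingEnd ℂ) G = G := by
    rw [hG, map_sum]
    refine Finset.sum_congr rfl fun a _ => ?_
    rw [map_mul, Complex.conj_conj, mul_comm]
  have A2 : ∑ a, ∑ b, (starRingEnd ℂ) (S a b) * Y a b = -(2 * G / r) := by
    have h1 : ∑ a, ∑ b, (starRingEnd ℂ) (S a b) * Y a b = (starRingEnd ℂ) (∑ a, ∑ b, S a b * (starRingEnd ℂ) (Y a b)) := by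
      rw [map_sum]
      refine Finset.sum_congr rfl fun a _ => ?_
      rw [map_sum]
      refine Finset.sum_congr rfl fun b _ => ?_
      rw [map_mul, Complex.conj_conj]
    rw [h1, A1, map_neg, map_div₀, map_mul, hGr, Complex.conj_ofReal, map_ofNat]
  have hpc : ∑ a, (starRingEnd ℂ) (z a * p a) = 0 := by rw [← map_sum, hp, map_zero]
  have A3 : ∑ a, ∑ b, Y a b * (starRingEnd ℂ) (Y a b) = 2 * G / r := by
    have h1 : ∀ a b, Y a b * (starRingEnd ℂ) (Y a b) = (1 / (r : ℂ) ^ 2) *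
        (((p a * (starRingEnd ℂ) (p a)) * (z b * (starRingEnd ℂ) (z b)) + (z a * p a) * (starRingEnd ℂ) (z b * p b)) +
        ((starRingEnd ℂ) (z a * p a) * (z b * p b) + (z a * (starRingEnd ℂ) (z a)) * (p b * (starRingEnd ℂ) (p b)))) := by
      intro a b
      rw [hYc, map_mul, map_mul]
      simp only [hY]
      field_simp
    simp_rw [h1, ← Finset.mul_sum, Finset.sum_add_distrib, ← Finset.sum_mul_sum]
    rw [hz, hp, hpc, ← hG]
    field_simp
    try ring
  have key : ((∑ a, ∑ b, ‖S a b + Y a b‖ ^ 2 : ℝ) : ℂ)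
      = ((∑ a, ∑ b, ‖S a b‖ ^ 2 - 2 * (∑ a, ‖p a‖ ^ 2) / r : ℝ) : ℂ) := by
    rw [nsq2, Complex.ofReal_sub, nsq2, Complex.ofReal_div, Complex.ofReal_mul, nsq, ← hG]
    have h1 : ∀ a b, (S a b + Y a b) * (starRingEnd ℂ) (S a b + Y a b)
        = (S a b * (starRingEnd ℂ) (S a b) + S a b * (starRingEnd ℂ) (Y a b)) + ((starRingEnd ℂ) (S a b) * Y a b +
          Y a b * (starRingEnd ℂ) (Y a b)) := by
      intro a b
      rw [map_add]; ring
    simp_rw [h1, Finset.sum_add_distrib]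
    rw [A1, A2, A3]
    push_cast
    ring
  have key' := Complex.ofReal_injective key
  have h0 : 0 ≤ ∑ a, ∑ b, ‖S a b + Y a b‖ ^ 2 := by positivity
  rw [key'] at h0
  have h2 : 2 * (∑ a, ‖p a‖ ^ 2) / r ≤ ∑ a, ∑ b, ‖S a b‖ ^ 2 := by linarith
  rw [div_le_iff₀ hr] at h2
  linarith

private theorem alg2 (hm : 2 ≤ m) (z : Fin m → ℂ) (T : Fin m → Fin m → ℂ) {r δ : ℝ} (hr : 0 < r)
    (hz : ∑ a, z a * (starRingEnd ℂ) (z a) = r) (hT : ∀ b, ∑ a, z a * T a b = 0)
    (hδ : ∑ a, T a a = δ) :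
    δ ^ 2 / ((m : ℝ) - 1) ≤ ∑ a, ∑ b, ‖T a b‖ ^ 2 := by
  have hr' : (r : ℂ) ≠ 0 := by exact_mod_cast hr.ne'
  have hm' : (0 : ℝ) < (m : ℝ) - 1 := by
    have : (2 : ℝ) ≤ m := by exact_mod_cast hm
    linarith
  have hmc : ((m : ℂ) - 1) ≠ 0 := by
    have : (((m : ℝ) - 1 : ℝ) : ℂ) ≠ 0 := by exact_mod_cast hm'.ne'
    simpa using this
  set c : ℝ := δ / ((m : ℝ) - 1) with hc
  set Q : Fin m → Fin m → ℂ := fun a b => (if a = b then 1 else 0) - (starRingEnd ℂ) (z a) * z b / r with hQ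
  have hQc : ∀ a b, (starRingEnd ℂ) (Q a b) = (if a = b then 1 else 0) - z a * (starRingEnd ℂ) (z b) / r := by
    intro a b
    simp only [hQ, map_div₀, map_sub, map_mul, Complex.conj_conj, Complex.conj_ofReal]
    split_ifs <;> simp
  have B1 : ∑ a, ∑ b, T a b * (starRingEnd ℂ) (Q a b) = δ := by
    have h1 : ∀ a b, T a b * (starRingEnd ℂ) (Q a b)
        = (if a = b then T a b else 0) - ((starRingEnd ℂ) (z b) / r) * (z a * T a b) := by
      intro a b
      rw [hQc]
      split_ifs <;> ring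
    simp_rw [h1, Finset.sum_sub_distrib]
    rw [Finset.sum_comm (f := fun a b => ((starRingEnd ℂ) (z b) / r) * (z a * T a b))]
    simp_rw [← Finset.mul_sum, hT]
    simp [hδ]
  have B1' : ∑ a, ∑ b, (starRingEnd ℂ) (T a b) * Q a b = δ := by
    have h1 : ∑ a, ∑ b, (starRingEnd ℂ) (T a b) * Q a b = (starRingEnd ℂ) (∑ a, ∑ b, T a b * (starRingEnd ℂ) (Q a b)) := by
      rw [map_sum]
      refine Finset.sum_congr rfl fun a _ => ?_
      rw [map_sum]
      refine Finset.sum_congr rfl fun b _ => ?_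
      rw [map_mul, Complex.conj_conj]
    rw [h1, B1, Complex.conj_ofReal]
  have B2 : ∑ a, ∑ b, Q a b * (starRingEnd ℂ) (Q a b) = (m : ℂ) - 1 := by
    have h1 : ∀ a b, Q a b * (starRingEnd ℂ) (Q a b) = ((if a = b then 1 else 0) -
        (if a = b then 2 * (z a * (starRingEnd ℂ) (z a)) / r else 0)) +
        (1 / (r : ℂ) ^ 2) * ((z a * (starRingEnd ℂ) (z a)) * (z b * (starRingEnd ℂ) (z b))) := by
      intro a b
      rw [hQc]
      simp only [hQ]
      split_ifs with h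
      · subst h
        field_simp
        ring
      · field_simp
        ring
    simp_rw [h1, Finset.sum_add_distrib, Finset.sum_sub_distrib, ← Finset.mul_sum,
      ← Finset.sum_mul]
    rw [hz]
    simp only [Finset.sum_ite_eq, Finset.mem_univ, if_true, Finset.sum_const, Finset.card_univ,
      Fintype.card_fin, nsmul_eq_mul, mul_one]
    rw [← Finset.sum_div, ← Finset.mul_sum, hz]
    field_simp
    ring
  have key : ((∑ a, ∑ b, ‖T a b - c * Q a b‖ ^ 2 : ℝ) : ℂ)
      = ((∑ a, ∑ b, ‖T a b‖ ^ 2 - δ ^ 2 / ((m : ℝ) - 1) : ℝ) : ℂ) := by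
    rw [nsq2, Complex.ofReal_sub, nsq2]
    have h1 : ∀ a b, (T a b - c * Q a b) * (starRingEnd ℂ) (T a b - c * Q a b)
        = (T a b * (starRingEnd ℂ) (T a b) - c * (T a b * (starRingEnd ℂ) (Q a b))) - (c * ((starRingEnd ℂ) (T a b) * Q a b) -
          c ^ 2 * (Q a b * (starRingEnd ℂ) (Q a b))) := by
      intro a b
      rw [map_sub, map_mul, Complex.conj_ofReal]; ring
    simp_rw [h1, Finset.sum_sub_distrib, ← Finset.mul_sum]
    rw [B1, B1', B2, hc]
    push_cast
    field_simp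
    ring
  have key' := Complex.ofReal_injective key
  have h0 : 0 ≤ ∑ a, ∑ b, ‖T a b - c * Q a b‖ ^ 2 := by positivity
  rw [key'] at h0
  linarith

/-! ### calculus -/

private abbrev U (m : ℕ) : Set (E m) := {0}ᶜ

private theorem isOpen_U : IsOpen (U m) := isOpen_compl_singleton

private theorem dAt {f : E m → ℂ} (hf : ContDiffOn ℝ ∞ f (U m)) (hz : z ≠ 0) :
    DifferentiableAt ℝ f z := (two_of_open isOpen_U hf hz).differentiableAt (by norm_num)

private theorem c2 {f : E m → ℂ} (hf : ContDiffOn ℝ ∞ f (U m)) (hz : z ≠ 0) :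
    ContDiffAt ℝ 2 f z := two_of_open isOpen_U hf hz

private theorem evU (hz : z ≠ 0) : ∀ᶠ w in 𝓝 z, w ≠ 0 := isOpen_U.mem_nhds hz

private theorem dz_eqOn {f g : E m → ℂ} (h : ∀ w ≠ 0, f w = g w) (hz : z ≠ 0) (b : Fin m) :
    dz b f z = dz b g z := dz_congr ((evU hz).mono fun w hw => h w hw) b

private theorem db_eqOn {f g : E m → ℂ} (h : ∀ w ≠ 0, f w = g w) (hz : z ≠ 0) (b : Fin m) :
    db b f z = db b g z := db_congr ((evU hz).mono fun w hw => h w hw) b

private theorem diff_coord (j : Fin m) (z : E m) : DifferentiableAt ℝ (fun w : E m => w j) z := by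
  fun_prop

private theorem diff_coordc (j : Fin m) (z : E m) :
    DifferentiableAt ℝ (fun w : E m => (starRingEnd ℂ) (w j)) z :=
  Complex.conjCLE.differentiable.differentiableAt.comp z (diff_coord j z)

private theorem dz_coord (b j : Fin m) (z : E m) :
    dz b (fun w : E m => w j) z = if b = j then 1 else 0 := by
  rw [dz_hol (by fun_prop)]
  have h1 : fderiv ℂ (fun w : E m => w j) z = ContinuousLinearMap.proj j :=
    (hasFDerivAt_apply (𝕜 := ℂ) j z).fderiv
  rw [h1, ContinuousLinearMap.proj_apply, Pi.single_apply]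
  simp only [eq_comm]

private theorem db_coord (b j : Fin m) (z : E m) : db b (fun w : E m => w j) z = 0 :=
  db_hol (by fun_prop) b

private theorem dz_coordc (b j : Fin m) (z : E m) : dz b (fun w : E m => (starRingEnd ℂ) (w j)) z = 0 := by
  rw [dz_conj, db_coord, map_zero]

private theorem db_coordc (b j : Fin m) (z : E m) :
    db b (fun w : E m => (starRingEnd ℂ) (w j)) z = if b = j then 1 else 0 := by
  rw [db_conj, dz_coord]
  split_ifs <;> simp

private def rc (z : E m) : ℂ := ∑ j, z j * (starRingEnd ℂ) (z j)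

private theorem rc_eq (z : E m) : rc z = ((rr z : ℝ) : ℂ) := by
  unfold rc rr
  exact (nsq _ _).symm

private theorem diff_rc (z : E m) : DifferentiableAt ℝ (rc : E m → ℂ) z := by
  unfold rc
  exact DifferentiableAt.fun_sum fun j _ => (diff_coord j z).mul (diff_coordc j z)

private theorem dz_rc (b : Fin m) (z : E m) : dz b rc z = (starRingEnd ℂ) (z b) := by
  unfold rc
  rw [dz_sum (f := fun j (w : E m) => w j * (starRingEnd ℂ) (w j)) _
    fun j _ => (diff_coord j z).fun_mul (diff_coordc j z)]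
  simp_rw [dz_mul (diff_coord _ z) (diff_coordc _ z), dz_coord, dz_coordc]
  simp

private theorem db_rc (b : Fin m) (z : E m) : db b rc z = z b := by
  unfold rc
  rw [db_sum (f := fun j (w : E m) => w j * (starRingEnd ℂ) (w j)) _
    fun j _ => (diff_coord j z).fun_mul (diff_coordc j z)]
  simp_rw [db_mul (diff_coord _ z) (diff_coordc _ z), db_coord, db_coordc]
  simp

private theorem euler_dir (hF : SH F) (hz : z ≠ 0) (c : ℂ) :
    fderiv ℝ (cx F) z (c • z) = 0 := by
  have hu := dAt (ofRealOn hF.smooth) hz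
  have h1 : HasDerivAt (fun t : ℝ => (1 + (t : ℂ) * c) • z) (c • z) 0 := by
    have h2 : HasDerivAt (fun t : ℝ => (1 + (t : ℂ) * c)) c 0 := by
      have := ((Complex.ofRealCLM.hasDerivAt (x := (0 : ℝ))).mul_const c).const_add 1
      simpa using this
    exact h2.smul_const z
  have h3 : HasFDerivAt (cx F) (fderiv ℝ (cx F) z) ((1 + (((0 : ℝ)) : ℂ) * c) • z) := by
    simpa using hu.hasFDerivAt
  have h4 := h3.comp_hasDerivAt (0 : ℝ) h1
  have h5 : (cx F ∘ fun t : ℝ => (1 + (t : ℂ) * c) • z) =ᶠ[𝓝 0] fun _ => cx F z := by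
    have h6 : ∀ᶠ t : ℝ in 𝓝 0, (1 + (t : ℂ) * c) ≠ 0 := by
      have h7 : ContinuousAt (fun t : ℝ => (1 + (t : ℂ) * c)) 0 := by fun_prop
      exact h7.eventually_ne (by simp)
    filter_upwards [h6] with t ht
    show ((F ((1 + (t : ℂ) * c) • z) : ℝ) : ℂ) = _
    rw [hF.hom _ _ ht]
  have h9 : HasDerivAt (cx F ∘ fun t : ℝ => (1 + (t : ℂ) * c) • z) 0 0 :=
    (hasDerivAt_const (0 : ℝ) (cx F z)).congr_of_eventuallyEq h5
  exact h4.unique h9

private theorem euler (hF : SH F) (hz : z ≠ 0) :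
    (∑ j, z j * dz j (cx F) z = 0) ∧ ∑ j, (starRingEnd ℂ) (z j) * db j (cx F) z = 0 := by
  have h1 := euler_dir hF hz 1
  have h2 := euler_dir hF hz Complex.I
  rw [fderiv_eq_sum, Finset.sum_add_distrib] at h1 h2
  set A := ∑ j, z j * dz j (cx F) z with hA
  set B := ∑ j, (starRingEnd ℂ) (z j) * db j (cx F) z with hB
  have e1 : ∑ j, dz j (cx F) z * ((1 : ℂ) • z) j = A := by
    rw [hA]
    refine Finset.sum_congr rfl fun j _ => ?_
    simp only [Pi.smul_apply, smul_eq_mul]; ring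
  have e2 : ∑ j, db j (cx F) z * (starRingEnd ℂ) (((1 : ℂ) • z) j) = B := by
    rw [hB]
    refine Finset.sum_congr rfl fun j _ => ?_
    simp only [Pi.smul_apply, smul_eq_mul, one_mul]; ring
  have e3 : ∑ j, dz j (cx F) z * (Complex.I • z) j = Complex.I * A := by
    rw [hA, Finset.mul_sum]
    refine Finset.sum_congr rfl fun j _ => ?_
    simp only [Pi.smul_apply, smul_eq_mul]; ring
  have e4 : ∑ j, db j (cx F) z * (starRingEnd ℂ) ((Complex.I • z) j) = -(Complex.I * B) := by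
    rw [hB, Finset.mul_sum, ← Finset.sum_neg_distrib]
    refine Finset.sum_congr rfl fun j _ => ?_
    simp only [Pi.smul_apply, smul_eq_mul, map_mul, Complex.conj_I]; ring
  rw [e1, e2] at h1
  rw [e3, e4] at h2
  have h3 : Complex.I * (A - B) = 0 := by linear_combination h2
  have h4 : A - B = 0 := by
    rcases mul_eq_zero.1 h3 with h | h
    · exact absurd h Complex.I_ne_zero
    · exact h
  constructor
  · linear_combination (h1 + h4) / 2
  · linear_combination (h1 - h4) / 2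

/-! ### second order Euler relations -/

private theorem hu (hF : SH F) : ContDiffOn ℝ ∞ (cx F) (U m) := ofRealOn hF.smooth

private theorem hp (hF : SH F) (a : Fin m) : ContDiffOn ℝ ∞ (dz a (cx F)) (U m) :=
  contDiffOn_dz isOpen_U (hu hF) a

private theorem hq (hF : SH F) (a : Fin m) : ContDiffOn ℝ ∞ (db a (cx F)) (U m) :=
  contDiffOn_db isOpen_U (hu hF) a

private theorem e_zz (hF : SH F) (hz : z ≠ 0) (b : Fin m) :
    ∑ j, z j * dz b (dz j (cx F)) z = -dz b (cx F) z := by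
  have h0 : dz b (fun w => ∑ j, w j * dz j (cx F) w) z = 0 := by
    rw [dz_eqOn (g := fun _ => 0) (fun w hw => (euler hF hw).1) hz b, dz_const]
  rw [dz_sum (f := fun j (w : E m) => w j * dz j (cx F) w) _
    (fun j _ => (diff_coord j z).fun_mul (dAt (hp hF j) hz))] at h0
  simp_rw [dz_mul (diff_coord _ z) (dAt (hp hF _) hz), dz_coord, Finset.sum_add_distrib, ite_mul,
    one_mul, zero_mul, Finset.sum_ite_eq, Finset.mem_univ, if_true] at h0
  linear_combination h0

private theorem e_zb (hF : SH F) (hz : z ≠ 0) (b : Fin m) :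
    ∑ j, z j * db b (dz j (cx F)) z = 0 := by
  have h0 : db b (fun w => ∑ j, w j * dz j (cx F) w) z = 0 := by
    rw [db_eqOn (g := fun _ => 0) (fun w hw => (euler hF hw).1) hz b, db_const]
  rw [db_sum (f := fun j (w : E m) => w j * dz j (cx F) w) _
    (fun j _ => (diff_coord j z).fun_mul (dAt (hp hF j) hz))] at h0
  simp_rw [db_mul (diff_coord _ z) (dAt (hp hF _) hz), db_coord, Finset.sum_add_distrib, zero_mul,
    Finset.sum_const_zero] at h0
  linear_combination h0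

private theorem e_bz (hF : SH F) (hz : z ≠ 0) (b : Fin m) :
    ∑ j, (starRingEnd ℂ) (z j) * dz b (db j (cx F)) z = 0 := by
  have h0 : dz b (fun w => ∑ j, (starRingEnd ℂ) (w j) * db j (cx F) w) z = 0 := by
    rw [dz_eqOn (g := fun _ => 0) (fun w hw => (euler hF hw).2) hz b, dz_const]
  rw [dz_sum (f := fun j (w : E m) => (starRingEnd ℂ) (w j) * db j (cx F) w) _
    (fun j _ => (diff_coordc j z).fun_mul (dAt (hq hF j) hz))] at h0
  simp_rw [dz_mul (diff_coordc _ z) (dAt (hq hF _) hz), dz_coordc, Finset.sum_add_distrib,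
    zero_mul, Finset.sum_const_zero] at h0
  linear_combination h0

private theorem e_bb (hF : SH F) (hz : z ≠ 0) (b : Fin m) :
    ∑ j, (starRingEnd ℂ) (z j) * db b (db j (cx F)) z = -db b (cx F) z := by
  have h0 : db b (fun w => ∑ j, (starRingEnd ℂ) (w j) * db j (cx F) w) z = 0 := by
    rw [db_eqOn (g := fun _ => 0) (fun w hw => (euler hF hw).2) hz b, db_const]
  rw [db_sum (f := fun j (w : E m) => (starRingEnd ℂ) (w j) * db j (cx F) w) _
    (fun j _ => (diff_coordc j z).fun_mul (dAt (hq hF j) hz))] at h0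
  simp_rw [db_mul (diff_coordc _ z) (dAt (hq hF _) hz), db_coordc, Finset.sum_add_distrib,
    ite_mul, one_mul, zero_mul, Finset.sum_ite_eq, Finset.mem_univ, if_true] at h0
  linear_combination h0

private theorem conj_db (F : E m → ℝ) (a : Fin m) (w : E m) :
    (starRingEnd ℂ) (db a (cx F) w) = dz a (cx F) w := A2.dz_real F w a

private theorem conj_dz (F : E m → ℝ) (a : Fin m) (w : E m) :
    (starRingEnd ℂ) (dz a (cx F) w) = db a (cx F) w := by
  rw [← conj_db, Complex.conj_conj]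

private theorem conj_dzdz (F : E m → ℝ) (a b : Fin m) (w : E m) :
    (starRingEnd ℂ) (dz b (dz a (cx F)) w) = db b (db a (cx F)) w := by
  rw [← db_conj]
  congr 1
  funext y
  exact conj_dz F a y

private theorem conj_dzdb (F : E m → ℝ) (a b : Fin m) (w : E m) :
    (starRingEnd ℂ) (dz b (db a (cx F)) w) = db b (dz a (cx F)) w := by
  rw [← db_conj]
  congr 1
  funext y
  exact conj_db F a y

/-! ### the functions `g` and `Δ u` -/

private def G (F : E m → ℝ) (w : E m) : ℂ := ∑ a, dz a (cx F) w * db a (cx F) w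

private def Dl (F : E m → ℝ) (w : E m) : ℂ := ∑ b, dz b (db b (cx F)) w

private theorem G_eq (F : E m → ℝ) (w : E m) :
    G F w = ((∑ a, ‖dz a (cx F) w‖ ^ 2 : ℝ) : ℂ) := by
  rw [nsq]
  unfold G
  exact Finset.sum_congr rfl fun a _ => by rw [conj_dz]

private theorem hG (hF : SH F) : ContDiffOn ℝ ∞ (G F) (U m) := by
  unfold G
  exact ContDiffOn.sum fun a _ => (hp hF a).mul (hq hF a)

private theorem hDl (hF : SH F) : ContDiffOn ℝ ∞ (Dl F) (U m) := by
  unfold Dl
  exact ContDiffOn.sum fun a _ => contDiffOn_dz isOpen_U (hq hF a) a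

private theorem Dl_conj (hF : SH F) {w : E m} (hw : w ≠ 0) : (starRingEnd ℂ) (Dl F w) = Dl F w := by
  unfold Dl
  rw [map_sum]
  refine Finset.sum_congr rfl fun b _ => ?_
  rw [conj_dzdb, dz_db_comm (c2 (hu hF) hw)]

private theorem Dl_eq (hF : SH F) {w : E m} (hw : w ≠ 0) :
    Dl F w = ((∑ a, (lev F w a a).re : ℝ) : ℂ) := by
  have h1 : ((Dl F w).re : ℂ) = Dl F w := Complex.conj_eq_iff_re.1 (Dl_conj hF hw)
  rw [← h1]
  unfold Dl
  rw [Complex.re_sum]
  rfl

private theorem dzG (hF : SH F) (hz : z ≠ 0) (b : Fin m) : dz b (G F) z =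
    ∑ a, (dz b (dz a (cx F)) z * db a (cx F) z + dz a (cx F) z * dz b (db a (cx F)) z) := by
  unfold G
  rw [dz_sum (f := fun a (w : E m) => dz a (cx F) w * db a (cx F) w) _
    (fun a _ => (dAt (hp hF a) hz).fun_mul (dAt (hq hF a) hz))]
  simp_rw [dz_mul (dAt (hp hF _) hz) (dAt (hq hF _) hz)]

private theorem dbG (hF : SH F) (hz : z ≠ 0) (b : Fin m) : db b (G F) z =
    ∑ a, (db b (dz a (cx F)) z * db a (cx F) z + dz a (cx F) z * db b (db a (cx F)) z) := by
  unfold G
  rw [db_sum (f := fun a (w : E m) => dz a (cx F) w * db a (cx F) w) _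
    (fun a _ => (dAt (hp hF a) hz).fun_mul (dAt (hq hF a) hz))]
  simp_rw [db_mul (dAt (hp hF _) hz) (dAt (hq hF _) hz)]

private theorem zG (hF : SH F) (hz : z ≠ 0) : ∑ b, z b * dz b (G F) z = -G F z := by
  have h1 : ∀ b, z b * dz b (G F) z = ∑ a, (db a (cx F) z * (z b * dz a (dz b (cx F)) z) +
      dz a (cx F) z * (z b * db a (dz b (cx F)) z)) := by
    intro b
    rw [dzG hF hz, Finset.mul_sum]
    refine Finset.sum_congr rfl fun a _ => ?_
    rw [dz_dz_comm (c2 (hu hF) hz) b a, dz_db_comm (c2 (hu hF) hz) b a]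
    ring
  simp_rw [h1]
  rw [Finset.sum_comm]
  simp_rw [Finset.sum_add_distrib, ← Finset.mul_sum, e_zz hF hz, e_zb hF hz]
  unfold G
  rw [← Finset.sum_neg_distrib, ← Finset.sum_add_distrib]
  refine Finset.sum_congr rfl fun a _ => ?_
  ring

private theorem cG (hF : SH F) (hz : z ≠ 0) : ∑ b, (starRingEnd ℂ) (z b) * db b (G F) z = -G F z := by
  have h1 : ∀ b, (starRingEnd ℂ) (z b) * db b (G F) z =
      ∑ a, (db a (cx F) z * ((starRingEnd ℂ) (z b) * dz a (db b (cx F)) z) +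
      dz a (cx F) z * ((starRingEnd ℂ) (z b) * db a (db b (cx F)) z)) := by
    intro b
    rw [dbG hF hz, Finset.mul_sum]
    refine Finset.sum_congr rfl fun a _ => ?_
    rw [db_db_comm (c2 (hu hF) hz) b a, ← dz_db_comm (c2 (hu hF) hz) a b]
    ring
  simp_rw [h1]
  rw [Finset.sum_comm]
  simp_rw [Finset.sum_add_distrib, ← Finset.mul_sum, e_bz hF hz, e_bb hF hz]
  unfold G
  rw [← Finset.sum_neg_distrib, ← Finset.sum_add_distrib]
  refine Finset.sum_congr rfl fun a _ => ?_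
  ring

private theorem ddG (hF : SH F) (hz : z ≠ 0) (b : Fin m) : dz b (db b (G F)) z =
    ∑ a, ((dz b (db b (dz a (cx F))) z * db a (cx F) z +
        db b (dz a (cx F)) z * dz b (db a (cx F)) z) +
      (dz b (dz a (cx F)) z * db b (db a (cx F)) z +
        dz a (cx F) z * dz b (db b (db a (cx F))) z)) := by
  rw [dz_eqOn (g := fun w => ∑ a, (db b (dz a (cx F)) w * db a (cx F) w +
    dz a (cx F) w * db b (db a (cx F)) w)) (fun w hw => dbG hF hw b) hz b]
  have d1 : ∀ a, DifferentiableAt ℝ (db b (dz a (cx F))) z := fun a =>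
    dAt (contDiffOn_db isOpen_U (hp hF a) b) hz
  have d2 : ∀ a, DifferentiableAt ℝ (db b (db a (cx F))) z := fun a =>
    dAt (contDiffOn_db isOpen_U (hq hF a) b) hz
  have d3 : ∀ a, DifferentiableAt ℝ (db a (cx F)) z := fun a => dAt (hq hF a) hz
  have d4 : ∀ a, DifferentiableAt ℝ (dz a (cx F)) z := fun a => dAt (hp hF a) hz
  rw [dz_sum (f := fun a (w : E m) => db b (dz a (cx F)) w * db a (cx F) w +
    dz a (cx F) w * db b (db a (cx F)) w) _
    (fun a _ => ((d1 a).fun_mul (d3 a)).fun_add ((d4 a).fun_mul (d2 a)))]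
  refine Finset.sum_congr rfl fun a _ => ?_
  rw [dz_add ((d1 a).fun_mul (d3 a)) ((d4 a).fun_mul (d2 a)), dz_mul (d1 a) (d3 a),
    dz_mul (d4 a) (d2 a)]

private theorem s1 (hF : SH F) (hz : z ≠ 0) (a : Fin m) :
    ∑ b, dz b (db b (dz a (cx F))) z = dz a (Dl F) z := by
  unfold Dl
  rw [dz_sum (f := fun b (w : E m) => dz b (db b (cx F)) w) _
    (fun b _ => dAt (contDiffOn_dz isOpen_U (hq hF b) b) hz)]
  refine Finset.sum_congr rfl fun b _ => ?_
  rw [dz_dz_comm (c2 (hq hF b) hz) a b]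
  exact dz_eqOn (fun w hw => (dz_db_comm (c2 (hu hF) hw) a b).symm) hz b

private theorem s2 (hF : SH F) (hz : z ≠ 0) (a : Fin m) :
    ∑ b, dz b (db b (db a (cx F))) z = db a (Dl F) z := by
  unfold Dl
  rw [db_sum (f := fun b (w : E m) => dz b (db b (cx F)) w) _
    (fun b _ => dAt (contDiffOn_dz isOpen_U (hq hF b) b) hz)]
  refine Finset.sum_congr rfl fun b _ => ?_
  rw [← dz_db_comm (c2 (hq hF b) hz) b a]
  exact dz_eqOn (fun w hw => db_db_comm (c2 (hu hF) hw) b a) hz b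

private theorem conj_dbDl (hF : SH F) (hz : z ≠ 0) (a : Fin m) :
    (starRingEnd ℂ) (db a (Dl F) z) = dz a (Dl F) z := by
  rw [← dz_conj]
  exact dz_eqOn (fun w hw => Dl_conj hF hw) hz a

private theorem sum_ddG (hF : SH F) (hz : z ≠ 0) : ∑ b, dz b (db b (G F)) z =
    ((starRingEnd ℂ) (∑ a, dz a (cx F) z * db a (Dl F) z) + ∑ a, dz a (cx F) z * db a (Dl F) z) +
      (((∑ a, ∑ b, ‖dz a (dz b (cx F)) z‖ ^ 2 : ℝ) : ℂ) +
        ((∑ a, ∑ b, ‖dz a (db b (cx F)) z‖ ^ 2 : ℝ) : ℂ)) := by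
  simp_rw [ddG hF hz]
  rw [Finset.sum_comm]
  simp_rw [Finset.sum_add_distrib, ← Finset.mul_sum, ← Finset.sum_mul, s1 hF hz, s2 hF hz]
  have h1 : (starRingEnd ℂ) (∑ a, dz a (cx F) z * db a (Dl F) z) = ∑ a, dz a (Dl F) z * db a (cx F) z := by
    rw [map_sum]
    refine Finset.sum_congr rfl fun a _ => ?_
    rw [map_mul, conj_dbDl hF hz, conj_dz, mul_comm]
  have h2 : ∑ a, ∑ b, db b (dz a (cx F)) z * dz b (db a (cx F)) z
      = ((∑ a, ∑ b, ‖dz a (db b (cx F)) z‖ ^ 2 : ℝ) : ℂ) := by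
    rw [nsq2]
    refine Finset.sum_congr rfl fun a _ => Finset.sum_congr rfl fun b _ => ?_
    rw [conj_dzdb, ← dz_db_comm (c2 (hu hF) hz) a b, ← dz_db_comm (c2 (hu hF) hz) b a]
  have h3 : ∑ a, ∑ b, dz b (dz a (cx F)) z * db b (db a (cx F)) z
      = ((∑ a, ∑ b, ‖dz a (dz b (cx F)) z‖ ^ 2 : ℝ) : ℂ) := by
    rw [nsq2]
    refine Finset.sum_congr rfl fun a _ => Finset.sum_congr rfl fun b _ => ?_
    rw [conj_dzdz, dz_dz_comm (c2 (hu hF) hz) b a, db_db_comm (c2 (hu hF) hz) b a]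
  rw [h1, h2, h3]
  ring

private theorem cxGH (w : E m) : cx (GH F F) w = (1 / (m : ℂ)) * (rc w * G F w) := by
  show ((GH F F w : ℝ) : ℂ) = _
  have h1 : (∑ a, dz a (cx F) w * db a (cx F) w) = G F w := rfl
  unfold GH
  rw [h1, rc_eq, G_eq, Complex.ofReal_re]
  push_cast
  ring

private theorem cxLH (hF : SH F) {w : E m} (hw : w ≠ 0) :
    cx (LH F) w = (1 / (m : ℂ)) * (rc w * Dl F w) := by
  show ((LH F w : ℝ) : ℂ) = _
  unfold LH
  rw [rc_eq, Dl_eq hF hw]
  push_cast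
  ring

private theorem db_cxGH (hF : SH F) {w : E m} (hw : w ≠ 0) (a : Fin m) :
    db a (cx (GH F F)) w = (1 / (m : ℂ)) * (w a * G F w + rc w * db a (G F) w) := by
  rw [db_eqOn (g := fun w => (1 / (m : ℂ)) * (rc w * G F w)) (fun w _ => cxGH w) hw a,
    db_const_mul, db_mul (diff_rc w) (dAt (hG hF) hw), db_rc]

private theorem dzdb_cxGH (hF : SH F) (hz : z ≠ 0) (a : Fin m) :
    dz a (db a (cx (GH F F))) z = (1 / (m : ℂ)) * ((1 * G F z + z a * dz a (G F) z) +
      ((starRingEnd ℂ) (z a) * db a (G F) z + rc z * dz a (db a (G F)) z)) := by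
  have d1 := dAt (contDiffOn_db isOpen_U (hG hF) a) hz
  have d2 := dAt (hG hF) hz
  rw [dz_eqOn (g := fun w => (1 / (m : ℂ)) * (w a * G F w + rc w * db a (G F) w))
    (fun w hw => db_cxGH hF hw a) hz a, dz_const_mul,
    dz_add ((diff_coord a z).fun_mul d2) ((diff_rc z).fun_mul d1), dz_mul (diff_coord a z) d2,
    dz_mul (diff_rc z) d1, dz_coord, dz_rc, if_pos rfl]

private theorem db_cxLH (hF : SH F) (hz : z ≠ 0) (a : Fin m) :
    db a (cx (LH F)) z = (1 / (m : ℂ)) * (z a * Dl F z + rc z * db a (Dl F) z) := by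
  rw [db_eqOn (g := fun w => (1 / (m : ℂ)) * (rc w * Dl F w)) (fun w hw => cxLH hF hw) hz a,
    db_const_mul, db_mul (diff_rc z) (dAt (hDl hF) hz), db_rc]

private theorem main (hm : 2 ≤ m) (hF : SH F) (hz : z ≠ 0) :
    GH F F z + (LH F z) ^ 2 / ((m : ℝ) - 1) ≤ LH (GH F F) z - 2 * GH F (LH F) z := by
  have hm0 : (0 : ℝ) < m := by
    have : 0 < m := by omega
    exact_mod_cast this
  have hm1 : (0 : ℝ) < (m : ℝ) - 1 := by
    have : (2 : ℝ) ≤ m := by exact_mod_cast hm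
    linarith
  have hmc : (m : ℂ) ≠ 0 := by
    have : m ≠ 0 := by omega
    exact_mod_cast this
  have hr : 0 < rr z := by
    obtain ⟨j, hj⟩ := Function.ne_iff.1 hz
    unfold rr
    refine Finset.sum_pos' (fun _ _ => by positivity) ⟨j, Finset.mem_univ _, ?_⟩
    have : 0 < ‖z j‖ := norm_pos_iff.2 hj
    positivity
  set r := rr z with hrdef
  set g : ℝ := ∑ a, ‖dz a (cx F) z‖ ^ 2 with hg
  set δ : ℝ := ∑ a, (lev F z a a).re with hδ
  set W : ℂ := ∑ a, dz a (cx F) z * db a (Dl F) z with hW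
  set H1 : ℝ := ∑ a, ∑ b, ‖dz a (dz b (cx F)) z‖ ^ 2 with hH1
  set H2 : ℝ := ∑ a, ∑ b, ‖dz a (db b (cx F)) z‖ ^ 2 with hH2
  have hrc : rc z = (r : ℂ) := rc_eq z
  have hGz : G F z = (g : ℂ) := G_eq F z
  have hDz : Dl F z = (δ : ℂ) := Dl_eq hF hz
  have i1 : 2 * g ≤ r * H1 := by
    refine alg1 z (fun a => dz a (cx F) z) (fun a b => dz a (dz b (cx F)) z) hr hrc
      (euler hF hz).1 (fun a => e_zz hF hz a) fun b => ?_
    rw [← e_zz hF hz b]
    refine Finset.sum_congr rfl fun a _ => ?_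
    rw [dz_dz_comm (c2 (hu hF) hz) a b]
  have i2 : δ ^ 2 / ((m : ℝ) - 1) ≤ H2 := by
    refine alg2 hm z (fun a b => dz a (db b (cx F)) z) hr hrc (fun b => ?_) hDz
    rw [← e_zb hF hz b]
    refine Finset.sum_congr rfl fun a _ => ?_
    rw [dz_db_comm (c2 (hu hF) hz) a b]
  have t1 : GH F F z = r / m * g := by
    unfold GH
    have h1 : (∑ a, dz a (cx F) z * db a (cx F) z) = G F z := rfl
    rw [h1, hGz, Complex.ofReal_re]
  have t2 : LH F z = r / m * δ := rfl
  have t3 : GH F (LH F) z = r / m * (r / m * W.re) := by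
    have h1 : ∑ a, dz a (cx F) z * db a (cx (LH F)) z = ((r / m : ℝ) : ℂ) * W := by
      simp_rw [db_cxLH hF hz]
      have h2 : ∀ a, dz a (cx F) z * ((1 / (m : ℂ)) * (z a * Dl F z + rc z * db a (Dl F) z))
          = (Dl F z / m) * (z a * dz a (cx F) z) +
            (rc z / m) * (dz a (cx F) z * db a (Dl F) z) := by
        intro a; ring
      simp_rw [h2, Finset.sum_add_distrib, ← Finset.mul_sum]
      rw [(euler hF hz).1, hrc]
      push_cast
      ring
    unfold GH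
    rw [h1, Complex.re_ofReal_mul]
  have t4 : LH (GH F F) z = r / m * (1 / m * ((m - 2) * g + r * (2 * W.re + H1 + H2))) := by
    have h1 : ∑ a, (lev (GH F F) z a a).re = (∑ a, dz a (db a (cx (GH F F))) z).re := by
      rw [Complex.re_sum]
      rfl
    have h2 : ∑ a, dz a (db a (cx (GH F F))) z
        = ((1 / m * ((m - 2) * g + r * (2 * W.re + H1 + H2)) : ℝ) : ℂ) := by
      simp_rw [dzdb_cxGH hF hz, ← Finset.mul_sum, Finset.sum_add_distrib, ← Finset.mul_sum,
        zG hF hz, cG hF hz, sum_ddG hF hz, Finset.sum_const, Finset.card_univ, Fintype.card_fin]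
      rw [hGz, hrc, ← hW, ← hH1, ← hH2]
      have h3 : (starRingEnd ℂ) W + W = ((2 * W.re : ℝ) : ℂ) := by
        rw [add_comm, Complex.add_conj]
      rw [h3]
      push_cast
      simp only [nsmul_eq_mul]
      ring
    unfold LH
    rw [h1, h2, Complex.ofReal_re]
  rw [t1, t2, t3, t4]
  have e1 : r / m * (1 / m * ((m - 2) * g + r * (2 * W.re + H1 + H2))) -
      2 * (r / m * (r / m * W.re)) = r / m ^ 2 * ((m - 2) * g + r * H1 + r * H2) := by
    field_simp
    ring
  have e2 : r / m * g + (r / m * δ) ^ 2 / ((m : ℝ) - 1)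
      = r / m ^ 2 * ((m - 2) * g + 2 * g + r * (δ ^ 2 / ((m : ℝ) - 1))) := by
    field_simp
    ring
  rw [e1, e2]
  refine mul_le_mul_of_nonneg_left ?_ (by positivity)
  have i3 := mul_le_mul_of_nonneg_left i2 hr.le
  linarith

end P9

theorem CD_hom (hm : 2 ≤ m) (hF : SH F) (hz : z ≠ 0) :
    GH F F z + (LH F z) ^ 2 / ((m : ℝ) - 1) ≤ LH (GH F F) z - 2 * GH F (LH F) z :=
  P9.main hm hF hz

end Pool.Agent.helper31.NU
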